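import Pool.Agent.H174.GP.StA

/-!
# Task GP B2 (helper903 for helper174): bridge between `cnt`, `cntP` and expectations
-/

set_option autoImplicit false
set_option linter.all false

open MeasureTheory ProbabilityTheory Finset

namespace Pool.Agent.H903.GP174

open Pool.Agent.H174.GP

theorem Icc_eq (d : ℕ) : Icc 1 d = (range d).image (fun i => i + 1) := by
  ext j
  simp only [mem_Icc, mem_image, mem_range]
  constructor
  · rintro ⟨h1, h2⟩
    exact ⟨j - 1, by omega, by omega⟩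
  · rintro ⟨i, h1, rfl⟩
    omega

theorem sum_shift {M : Type} [AddCommMonoid M] (d : ℕ) (f : ℕ → M) :
    ∑ j ∈ Icc 1 d, f j = ∑ i : Fin d, f ((i : ℕ) + 1) := by
  rw [Fin.sum_univ_eq_sum_range (fun i => f (i + 1)) d, Icc_eq, sum_image]
  intro a _ b _ hab
  exact Nat.succ_injective hab

theorem prod_shift {M : Type} [CommMonoid M] (d : ℕ) (f : ℕ → M) :
    ∏ j ∈ Icc 1 d, f j = ∏ i : Fin d, f ((i : ℕ) + 1) := by
  rw [Fin.prod_univ_eq_prod_range (fun i => f (i + 1)) d, Icc_eq, prod_image]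
  intro a _ b _ hab
  exact Nat.succ_injective hab

/-- the size of `x` -/
def sz {d : ℕ} (x : Fin d → ℤ) : ℤ := ∑ i : Fin d, (((i : ℕ) + 1 : ℕ) : ℤ) * |x i|

theorem sz_nonneg {d : ℕ} (x : Fin d → ℤ) : 0 ≤ sz x :=
  sum_nonneg fun i _ => mul_nonneg (Int.natCast_nonneg _) (abs_nonneg _)

theorem abs_le_sz {d : ℕ} (x : Fin d → ℤ) (i : Fin d) : |x i| ≤ sz x := by
  have h1 : (((i : ℕ) + 1 : ℕ) : ℤ) * |x i| ≤ sz x :=
    single_le_sum (f := fun i : Fin d => (((i : ℕ) + 1 : ℕ) : ℤ) * |x i|)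
      (fun i _ => mul_nonneg (Int.natCast_nonneg _) (abs_nonneg _)) (mem_univ i)
  have h2 : 1 * |x i| ≤ (((i : ℕ) + 1 : ℕ) : ℤ) * |x i| := by
    refine mul_le_mul_of_nonneg_right ?_ (abs_nonneg _)
    push_cast
    omega
  linarith

/-- the set of the common parts -/
def Gs (d n : ℕ) (x : Fin d → ℤ) : Set (Fin d → ℕ) :=
  {γ | (d : ℤ) ^ 2 + 2 * ((∑ i : Fin d, ((i : ℕ) + 1) * γ i : ℕ) : ℤ) + sz x = 2 * n}

/-- the pair of `x` and `γ` -/
def ph {d : ℕ} (x : Fin d → ℤ) (γ : Fin d → ℕ) : (Fin d → ℕ) × (Fin d → ℕ) :=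
  (fun i => γ i + (-(x i)).toNat, fun i => γ i + (x i).toNat)

theorem ph_inj {d : ℕ} (x : Fin d → ℤ) : Function.Injective (ph x) := by
  intro γ γ' h
  funext i
  have h1 := congrFun (congrArg Prod.fst h) i
  simp only [ph] at h1
  omega

theorem ph_sum {d : ℕ} (x : Fin d → ℤ) (γ : Fin d → ℕ) :
    ((∑ i : Fin d, ((i : ℕ) + 1) * ((ph x γ).1 i + (ph x γ).2 i) : ℕ) : ℤ) =
      2 * ((∑ i : Fin d, ((i : ℕ) + 1) * γ i : ℕ) : ℤ) + sz x := by
  unfold sz
  push_cast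
  rw [mul_sum, ← sum_add_distrib]
  refine sum_congr rfl fun i _ => ?_
  have h1 : (((ph x γ).1 i : ℕ) : ℤ) + (((ph x γ).2 i : ℕ) : ℤ) = 2 * (γ i : ℤ) + |x i| := by
    simp only [ph]
    rcases abs_cases (x i) with h | h <;> omega
  rw [h1]
  ring

theorem fiber (d n : ℕ) (x : Fin d → ℤ) :
    {gh : (Fin d → ℕ) × (Fin d → ℕ) |
      d ^ 2 + ∑ i : Fin d, ((i : ℕ) + 1) * (gh.1 i + gh.2 i) = 2 * n ∧
        (fun i => (gh.2 i : ℤ) - (gh.1 i : ℤ)) = x} = ph x '' Gs d n x := by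
  ext gh
  simp only [Set.mem_setOf_eq, Set.mem_image]
  constructor
  · rintro ⟨h1, h2⟩
    have h3 : ph x (fun i => min (gh.1 i) (gh.2 i)) = gh := by
      have h4 : ∀ i, x i = (gh.2 i : ℤ) - (gh.1 i : ℤ) := fun i => (congrFun h2 i).symm
      apply Prod.ext
      · funext i
        simp only [ph]
        have := h4 i
        omega
      · funext i
        simp only [ph]
        have := h4 i
        omega
    refine ⟨fun i => min (gh.1 i) (gh.2 i), ?_, h3⟩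
    have h5 := ph_sum x (fun i => min (gh.1 i) (gh.2 i))
    rw [h3] at h5
    show (d : ℤ) ^ 2 + 2 * ((∑ i : Fin d, ((i : ℕ) + 1) * (min (gh.1 i) (gh.2 i)) : ℕ) : ℤ) + sz x = 2 * n
    have h6 : ((d ^ 2 + ∑ i : Fin d, ((i : ℕ) + 1) * (gh.1 i + gh.2 i) : ℕ) : ℤ) = ((2 * n : ℕ) : ℤ) := by
      rw [h1]
    push_cast at h5 h6 ⊢
    linarith
  · rintro ⟨γ, hγ, rfl⟩
    constructor
    · have h5 := ph_sum x γ
      have h6 : (d : ℤ) ^ 2 + 2 * ((∑ i : Fin d, ((i : ℕ) + 1) * γ i : ℕ) : ℤ) + sz x = 2 * n := hγ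
      have h7 : ((d ^ 2 + ∑ i : Fin d, ((i : ℕ) + 1) * ((ph x γ).1 i + (ph x γ).2 i) : ℕ) : ℤ) =
          ((2 * n : ℕ) : ℤ) := by
        rw [Nat.cast_add, h5]
        push_cast at h6 ⊢
        linarith
      exact_mod_cast h7
    · funext i
      simp only [ph]
      push_cast
      omega

/-- the finite range of the vectors -/
noncomputable def SS (d n : ℕ) : Finset (Fin d → ℤ) :=
  Fintype.piFinset (fun _ : Fin d => Icc (-(2 * n : ℤ)) (2 * n))

theorem mem_SS {d n : ℕ} {x : Fin d → ℤ} (h : sz x ≤ 2 * n) : x ∈ SS d n := by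
  unfold SS
  rw [Fintype.mem_piFinset]
  intro i
  rw [mem_Icc, ← abs_le]
  exact (abs_le_sz x i).trans h

open Classical in
theorem count (d n : ℕ) (c : (Fin d → ℤ) → Prop) :
    Set.ncard {gh : (Fin d → ℕ) × (Fin d → ℕ) |
      d ^ 2 + ∑ i : Fin d, ((i : ℕ) + 1) * (gh.1 i + gh.2 i) = 2 * n ∧
        c (fun i => (gh.2 i : ℤ) - (gh.1 i : ℤ))} =
      ∑ x ∈ SS d n, if c x then (Gs d n x).ncard else 0 := by
  obtain ⟨B, hB⟩ : ∃ B : Finset ((Fin d → ℕ) × (Fin d → ℕ)), B =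
    (Fintype.piFinset (fun _ : Fin d => range (2 * n + 1))) ×ˢ
      (Fintype.piFinset (fun _ : Fin d => range (2 * n + 1))) := ⟨_, rfl⟩
  have hmem : ∀ gh : (Fin d → ℕ) × (Fin d → ℕ),
      d ^ 2 + ∑ i : Fin d, ((i : ℕ) + 1) * (gh.1 i + gh.2 i) = 2 * n → gh ∈ B := by
    intro gh h
    have h1 : ∀ i, gh.1 i + gh.2 i ≤ 2 * n := by
      intro i
      have h2 : ((i : ℕ) + 1) * (gh.1 i + gh.2 i) ≤
          ∑ i : Fin d, ((i : ℕ) + 1) * (gh.1 i + gh.2 i) :=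
        single_le_sum (f := fun i : Fin d => ((i : ℕ) + 1) * (gh.1 i + gh.2 i))
          (fun _ _ => Nat.zero_le _) (mem_univ i)
      have h3 : gh.1 i + gh.2 i ≤ ((i : ℕ) + 1) * (gh.1 i + gh.2 i) :=
        Nat.le_mul_of_pos_left _ (Nat.succ_pos _)
      omega
    rw [hB, mem_product, Fintype.mem_piFinset, Fintype.mem_piFinset]
    constructor
    · intro i
      rw [mem_range]
      have := h1 i
      omega
    · intro i
      rw [mem_range]
      have := h1 i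
      omega
  have h1 : {gh : (Fin d → ℕ) × (Fin d → ℕ) |
      d ^ 2 + ∑ i : Fin d, ((i : ℕ) + 1) * (gh.1 i + gh.2 i) = 2 * n ∧
        c (fun i => (gh.2 i : ℤ) - (gh.1 i : ℤ))} =
      ((B.filter (fun gh => d ^ 2 + ∑ i : Fin d, ((i : ℕ) + 1) * (gh.1 i + gh.2 i) = 2 * n ∧
        c (fun i => (gh.2 i : ℤ) - (gh.1 i : ℤ))) : Finset _) : Set _) := by
    ext gh
    rw [mem_coe, mem_filter, Set.mem_setOf_eq]
    exact ⟨fun h => ⟨hmem gh h.1, h⟩, fun h => h.2⟩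
  rw [h1, Set.ncard_coe_finset]
  rw [card_eq_sum_card_fiberwise (f := fun gh : (Fin d → ℕ) × (Fin d → ℕ) =>
    (fun i => (gh.2 i : ℤ) - (gh.1 i : ℤ))) (t := SS d n)]
  · refine sum_congr rfl fun x _ => ?_
    by_cases hc : c x
    · rw [if_pos hc, ← Set.ncard_image_of_injective (Gs d n x) (ph_inj x), ← fiber,
        ← Set.ncard_coe_finset]
      congr 1
      ext gh
      rw [mem_coe, mem_filter, mem_filter, Set.mem_setOf_eq]
      constructor
      · rintro ⟨⟨h2, h3, h4⟩, h5⟩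
        exact ⟨h3, h5⟩
      · rintro ⟨h3, h5⟩
        exact ⟨⟨hmem gh h3, h3, by rw [h5]; exact hc⟩, h5⟩
    · rw [if_neg hc, card_eq_zero, filter_eq_empty_iff]
      intro gh hgh h5
      rw [mem_filter] at hgh
      rw [← h5] at hc
      exact hc hgh.2.2
  · intro gh hgh
    rw [mem_coe, mem_filter] at hgh
    rw [mem_coe]
    apply mem_SS
    have h2 : gh ∈ ph (fun i => (gh.2 i : ℤ) - (gh.1 i : ℤ)) ''
        Gs d n (fun i => (gh.2 i : ℤ) - (gh.1 i : ℤ)) := by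
      rw [← fiber]
      exact ⟨hgh.2.1, rfl⟩
    obtain ⟨γ, hγ, -⟩ := h2
    have h6 : (d : ℤ) ^ 2 + 2 * ((∑ i : Fin d, ((i : ℕ) + 1) * γ i : ℕ) : ℤ) +
      sz (fun i => (gh.2 i : ℤ) - (gh.1 i : ℤ)) = 2 * n := hγ
    have h7 : (0 : ℤ) ≤ ((∑ i : Fin d, ((i : ℕ) + 1) * γ i : ℕ) : ℤ) := Int.natCast_nonneg _
    have h8 : (0 : ℤ) ≤ (d : ℤ) ^ 2 := by positivity
    linarith

open Classical in
/-- the weight as a function of the vector -/
noncomputable def F0 (d n : ℕ) (σ : ℝ) (x : Fin d → ℤ) : ℝ :=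
  if Even ((2 * n : ℤ) - (d : ℤ) ^ 2 - sz x) then
    aa d σ (((2 * n : ℤ) - (d : ℤ) ^ 2 - sz x) / 2) else 0

/-- the random vector -/
noncomputable def XX (d : ℕ) (σ : ℝ) (ω : ℕ → ℝ) : Fin d → ℤ := fun i => geo σ ω ((i : ℕ) + 1)

theorem sX_eq (d : ℕ) (σ : ℝ) (ω : ℕ → ℝ) : sX σ ω d = sz (XX d σ ω) := by
  unfold sX sz XX
  rw [sum_shift d (fun j => (j : ℤ) * |geo σ ω j|)]

theorem wA_eq (d n : ℕ) (σ : ℝ) (ω : ℕ → ℝ) : wA d n σ ω = F0 d n σ (XX d σ ω) := by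
  unfold wA F0
  rw [sX_eq]

noncomputable def W0 (d : ℕ) (σ : ℝ) : ℝ :=
  ∏ j ∈ Icc 1 d, ((1 - Real.exp (-(σ * j))) / (1 + Real.exp (-(σ * j))))

noncomputable def W1 (d : ℕ) (σ : ℝ) : ℝ := ∏ j ∈ Icc 1 d, (1 - Real.exp (-(2 * σ * j)))

theorem W0_pos (d : ℕ) {σ : ℝ} (hσ : 0 < σ) : 0 < W0 d σ := by
  refine prod_pos fun j hj => ?_
  rw [mem_Icc] at hj
  have hj' : (1 : ℝ) ≤ j := by exact_mod_cast hj.1
  have h1 : Real.exp (-(σ * j)) < 1 := by
    rw [Real.exp_lt_one_iff]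
    nlinarith
  have h2 := Real.exp_pos (-(σ * j))
  exact div_pos (by linarith) (by linarith)

theorem W1_pos (d : ℕ) {σ : ℝ} (hσ : 0 < σ) : 0 < W1 d σ := by
  refine prod_pos fun j hj => ?_
  rw [mem_Icc] at hj
  have hj' : (1 : ℝ) ≤ j := by exact_mod_cast hj.1
  have h1 : Real.exp (-(2 * σ * j)) < 1 := by
    rw [Real.exp_lt_one_iff]
    nlinarith
  linarith

theorem prob (h1 : S_geolaw) (d : ℕ) {σ : ℝ} (hσ : 0 < σ) (x : Fin d → ℤ) :
    PP.real {ω | XX d σ ω = x} = W0 d σ * Real.exp (-(σ * sz x)) := by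
  obtain ⟨y, hy⟩ : ∃ y : ℕ → ℤ, ∀ i : Fin d, y ((i : ℕ) + 1) = x i := by
    refine ⟨fun j => if h : 1 ≤ j ∧ j ≤ d then x ⟨j - 1, by omega⟩ else 0, fun i => ?_⟩
    have h2 : 1 ≤ (i : ℕ) + 1 ∧ (i : ℕ) + 1 ≤ d := ⟨by omega, by have := i.2; omega⟩
    simp only [dif_pos h2]
    rfl
  have h2 : {ω | XX d σ ω = x} = {ω | ∀ j ∈ Finset.Icc 1 d, geo σ ω j = y j} := by
    ext ω
    simp only [Set.mem_setOf_eq]
    constructor
    · intro h j hj
      rw [mem_Icc] at hj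
      have h3 := congrFun h ⟨j - 1, by omega⟩
      rw [← hy] at h3
      have h4 : j - 1 + 1 = j := by omega
      simp only [XX, h4] at h3
      exact h3
    · intro h
      funext i
      rw [← hy]
      exact h _ (by rw [mem_Icc]; have := i.2; omega)
  rw [h2, h1 d σ y hσ, prod_mul_distrib, ← Real.exp_sum]
  unfold W0
  congr 2
  rw [sum_shift d (fun j => -(σ * j * ((|y j| : ℤ) : ℝ)))]
  unfold sz
  push_cast
  rw [mul_sum, ← sum_neg_distrib]
  refine sum_congr rfl fun i _ => ?_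
  rw [hy]
  ring

theorem meas (h2 : S_Tq) (d : ℕ) {σ : ℝ} (hσ : 0 < σ) : Measurable (XX d σ) := by
  refine measurable_pi_lambda _ fun i => ?_
  have h3 : 0 < σ * (((i : ℕ) + 1 : ℕ) : ℝ) := by positivity
  exact (h2 _ h3).2.2.2.1.comp (measurable_pi_apply ((i : ℕ) + 1))

open Classical in
theorem integ (h2 : S_Tq) (d : ℕ) {σ : ℝ} (hσ : 0 < σ) (s : Finset (Fin d → ℤ))
    (f : (Fin d → ℤ) → ℝ) (hf : ∀ x, x ∉ s → f x = 0) :
    ∫ ω, f (XX d σ ω) ∂PP = ∑ x ∈ s, f x * PP.real {ω | XX d σ ω = x} := by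
  have hm : ∀ x : Fin d → ℤ, MeasurableSet {ω | XX d σ ω = x} := fun x =>
    (meas h2 d hσ) (MeasurableSet.singleton x)
  have e : (fun ω => f (XX d σ ω)) =
      fun ω => ∑ x ∈ s, Set.indicator {ω | XX d σ ω = x} (fun _ => f x) ω := by
    funext ω
    by_cases h : XX d σ ω ∈ s
    · rw [sum_eq_single (XX d σ ω)]
      · rw [Set.indicator_of_mem]
        rfl
      · intro x _ hx
        rw [Set.indicator_of_notMem]
        exact fun h' => hx h'.symm
      · exact fun h' => absurd h h'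
    · rw [hf _ h, sum_eq_zero]
      intro x hx
      rw [Set.indicator_of_notMem]
      intro h'
      apply h
      have h3 : XX d σ ω = x := h'
      rw [h3]
      exact hx
  rw [e, integral_finset_sum]
  · refine sum_congr rfl fun x _ => ?_
    rw [integral_indicator_const _ (hm x), smul_eq_mul, mul_comm]
  · intro x _
    exact (integrable_const (f x)).indicator (hm x)

theorem weight (h1 : S_geolaw) (d n : ℕ) {σ : ℝ} (hσ : 0 < σ) (x : Fin d → ℤ) :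
    F0 d n σ x * PP.real {ω | XX d σ ω = x} =
      (Real.exp (-(σ * (2 * n - (d : ℝ) ^ 2))) * W0 d σ * W1 d σ) * ((Gs d n x).ncard : ℝ) := by
  rw [prob h1 d hσ]
  obtain ⟨t, ht⟩ : ∃ t : ℤ, t = (2 * n : ℤ) - (d : ℤ) ^ 2 - sz x := ⟨_, rfl⟩
  unfold F0
  rw [← ht]
  have hG : ∀ γ, γ ∈ Gs d n x ↔ 2 * ((∑ i : Fin d, ((i : ℕ) + 1) * γ i : ℕ) : ℤ) = t := by
    intro γ
    have e : γ ∈ Gs d n x ↔
      (d : ℤ) ^ 2 + 2 * ((∑ i : Fin d, ((i : ℕ) + 1) * γ i : ℕ) : ℤ) + sz x = 2 * n := Iff.rfl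
    rw [e, ht]
    constructor <;> intro h <;> linarith
  by_cases hev : Even t
  · rw [if_pos hev]
    obtain ⟨m, hm⟩ := hev
    have h2 : t / 2 = m := by omega
    rw [h2]
    unfold aa
    by_cases hm0 : 0 ≤ m
    · rw [if_pos hm0]
      have h3 : (Gs d n x).ncard = Nd d m.toNat := by
        unfold Nd
        congr 1
        ext γ
        rw [hG, Set.mem_setOf_eq, hm]
        constructor
        · intro h
          omega
        · intro h
          rw [h]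
          omega
      rw [h3]
      have h4 : (t : ℝ) = 2 * n - (d : ℝ) ^ 2 - (sz x : ℝ) := by
        rw [ht]
        push_cast
        ring
      have h5 : (t : ℝ) = 2 * (m : ℝ) := by
        rw [hm]
        push_cast
        ring
      have h6 : Real.exp (-(2 * σ * m)) * Real.exp (-(σ * sz x)) =
          Real.exp (-(σ * (2 * n - (d : ℝ) ^ 2))) := by
        rw [← Real.exp_add]
        congr 1
        have h7 : (2 : ℝ) * m = 2 * n - (d : ℝ) ^ 2 - (sz x : ℝ) := by rw [← h5, h4]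
        linear_combination (-σ) * h7
      rw [← h6]
      unfold W1
      ring
    · rw [if_neg hm0]
      have h3 : Gs d n x = ∅ := by
        ext γ
        rw [hG]
        simp only [Set.mem_empty_iff_false, iff_false]
        intro h
        have h4 : (0 : ℤ) ≤ ((∑ i : Fin d, ((i : ℕ) + 1) * γ i : ℕ) : ℤ) := Int.natCast_nonneg _
        omega
      rw [h3, Set.ncard_empty]
      simp
  · rw [if_neg hev]
    have h3 : Gs d n x = ∅ := by
      ext γ
      rw [hG]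
      simp only [Set.mem_empty_iff_false, iff_false]
      intro h
      exact hev ⟨_, by rw [← h]; ring⟩
    rw [h3, Set.ncard_empty]
    simp

theorem F0_zero {d n : ℕ} {σ : ℝ} {x : Fin d → ℤ} (h : x ∉ SS d n) : F0 d n σ x = 0 := by
  have h1 : ¬ sz x ≤ 2 * n := fun h' => h (mem_SS h')
  unfold F0
  split_ifs with h2
  · unfold aa
    rw [if_neg]
    intro h3
    have h4 : (0 : ℤ) ≤ (d : ℤ) ^ 2 := by positivity
    omega
  · rfl

open Classical in
/-- **Task GP B2.** -/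
theorem gp_b2 (h1 : S_geolaw) (h2 : S_Tq) : Pool.Agent.H174.GP.S_B2 := by
  intro d n σ hd hσ
  obtain ⟨K, hK⟩ : ∃ K : ℝ, K = Real.exp (-(σ * (2 * n - (d : ℝ) ^ 2))) * W0 d σ * W1 d σ := ⟨_, rfl⟩
  have hK0 : 0 < K := by
    rw [hK]
    exact mul_pos (mul_pos (Real.exp_pos _) (W0_pos d hσ)) (W1_pos d hσ)
  have key : ∀ c : (Fin d → ℤ) → Prop,
      ((∑ x ∈ SS d n, if c x then (Gs d n x).ncard else 0 : ℕ) : ℝ) =
        K⁻¹ * ∫ ω, (if c (XX d σ ω) then F0 d n σ (XX d σ ω) else 0) ∂PP := by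
    intro c
    rw [integ h2 d hσ (SS d n) (fun x => if c x then F0 d n σ x else 0) (by
      intro x hx
      simp only [F0_zero hx, ite_self])]
    rw [Nat.cast_sum, mul_sum]
    refine sum_congr rfl fun x _ => ?_
    by_cases hc : c x
    · rw [if_pos hc, if_pos hc, weight h1 d n hσ x, ← hK, inv_mul_cancel_left₀ hK0.ne']
    · rw [if_neg hc, if_neg hc]
      simp
  refine ⟨K⁻¹, inv_pos.2 hK0, ?_, ?_⟩
  · have e1 := key (fun _ => True)
    rw [← count d n (fun _ => True)] at e1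
    have e2 : (cnt d (2 * n) : ℝ) = ((Set.ncard {gh : (Fin d → ℕ) × (Fin d → ℕ) |
      d ^ 2 + ∑ i : Fin d, ((i : ℕ) + 1) * (gh.1 i + gh.2 i) = 2 * n ∧ True} : ℕ) : ℝ) := by
      unfold cnt
      simp only [and_true]
    rw [e2]
    refine e1.trans ?_
    congr 2
    funext ω
    rw [if_pos trivial, wA_eq]
  · have e1 : cntP d (2 * n) = ∑ x ∈ SS d n, if (∀ k ∈ Finset.Icc 1 d,
        (k : ℤ) ≤ ∑ i : Fin d, ((min ((i : ℕ) + 1) k : ℕ) : ℤ) * x i) then (Gs d n x).ncard else 0 := by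
      rw [← count d n (fun x => ∀ k ∈ Finset.Icc 1 d,
        (k : ℤ) ≤ ∑ i : Fin d, ((min ((i : ℕ) + 1) k : ℕ) : ℤ) * x i)]
      rfl
    rw [e1, key (fun x => ∀ k ∈ Finset.Icc 1 d,
        (k : ℤ) ≤ ∑ i : Fin d, ((min ((i : ℕ) + 1) k : ℕ) : ℤ) * x i)]
    congr 2
    funext ω
    have e2 : (∀ k ∈ Finset.Icc 1 d, (k : ℤ) ≤ ∑ i : Fin d,
        ((min ((i : ℕ) + 1) k : ℕ) : ℤ) * XX d σ ω i) ↔
        ω ∈ {ω | ∀ k ∈ Finset.Icc 1 d, (k : ℝ) ≤ Cg σ ω d k} := by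
      rw [Set.mem_setOf_eq]
      refine forall₂_congr fun k _ => ?_
      have e3 : Cg σ ω d k = ((∑ i : Fin d, ((min ((i : ℕ) + 1) k : ℕ) : ℤ) * XX d σ ω i : ℤ) : ℝ) := by
        unfold Cg Cs
        rw [sum_shift d (fun j => ((min j k : ℕ) : ℝ) * (geo σ ω j : ℝ))]
        rw [Int.cast_sum]
        refine sum_congr rfl fun i _ => ?_
        rw [Int.cast_mul, Int.cast_natCast]
        rfl
      rw [e3]
      constructor
      · intro h
        exact_mod_cast h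
      · intro h
        exact_mod_cast h
    by_cases hc : ω ∈ {ω | ∀ k ∈ Finset.Icc 1 d, (k : ℝ) ≤ Cg σ ω d k}
    · rw [Set.indicator_of_mem hc, if_pos (e2.2 hc), wA_eq]
    · rw [Set.indicator_of_notMem hc, if_neg (fun h => hc (e2.1 h))]

end Pool.Agent.H903.GP174
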